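import Pool.Agent.helper18.KU.Spec

/-! # Project ku, row ku:LC2 (MP_974a61_co): the smaller graph for IN2 -/

set_option autoImplicit false

namespace Pool.Agent.KU

open Finset

noncomputable section

/-- a two-element set containing `a ≠ b` -/
theorem LC2_pair {V : Type} [DecidableEq V] (a b : V) (hab : a ≠ b) (T : Finset V)
    (hc : T.card = 2) (ha : a ∈ T) (hb : b ∈ T) : T = {a, b} := by
  symm
  apply eq_of_subset_of_card_le
  · intro x hx
    rw [mem_insert, mem_singleton] at hx
    rcases hx with rfl | rfl
    · exact ha
    · exact hb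
  · rw [hc, card_pair hab]

/-- the number of vertices is at most the number of root edges -/
theorem LC2_X {V : Type} [DecidableEq V] (S : Finset V) (X : V → ℕ)
    (w : V → V → ℕ) (hC : Cone S X w) (T : Finset V) (hT : T ⊆ S) :
    (T.card : ℤ) ≤ ∑ u ∈ T, (X u : ℤ) := by
  have h6 : ∑ u ∈ T, 1 ≤ ∑ u ∈ T, X u := sum_le_sum fun u hu => hC.root u (hT hu)
  rw [sum_const, smul_eq_mul, mul_one] at h6
  exact_mod_cast h6

/-- the condition `Cone.v` after adding the edge `a b` -/
theorem LC2_v (hEIN : EIN_stmt) {V : Type} [DecidableEq V] (S : Finset V) (X : V → ℕ)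
    (w : V → V → ℕ) (hC : Cone S X w) (hI : Irr S X w) (v : V) (hv : v ∈ S) (a b : V)
    (hab : a ≠ b) (hB : ¬ Blk S w a b) (T : Finset V) (hT : T ⊆ S.erase v) (h2 : 2 ≤ T.card)
    (ha : a ∈ T) (hb : b ∈ T) : E w T + 1 + 4 ≤ 3 * T.card := by
  obtain ⟨-, -, -, -, e5, -, -, -, -⟩ := hEIN V w hC.sy
  have hsub : T ⊆ S := hT.trans (erase_subset _ _)
  have h3 := hC.v T hsub h2
  have hTS : T ≠ S := by
    rintro rfl
    exact notMem_erase v T (hT hv)
  have h4 := (hI T hsub ⟨a, ha⟩ hTS).1
  have h5 := LC2_X S X w hC T hsub
  unfold f at h4
  rcases Nat.lt_or_ge T.card 4 with h7 | h7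
  · rcases Nat.lt_or_ge T.card 3 with h8 | h8
    · have h9 : T.card = 2 := by omega
      rw [LC2_pair a b hab T h9 ha hb, e5 a b hab, card_pair hab] at h3 ⊢
      have h11 : w a b ≠ 2 := fun h => hB (Or.inl h)
      omega
    · have h9 : T.card = 3 := by omega
      have h10 : E w T ≠ 5 := fun h => hB (Or.inr ⟨T, ⟨hsub, h9, h⟩, ha, hb⟩)
      omega
  · omega

theorem LC2 (hEIN : EIN_stmt) (hFNS : FNS_stmt) : LC2_stmt := by
  intro V _ S X w hC hI h5 v hv hvQ a ha b hb c hc d hd hva hvb hvc hvd hab hcd hXv hw hB1 hB2
  obtain ⟨-, -, -, -, e5, e6, -, -, -⟩ := hEIN V w hC.sy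
  obtain ⟨f1, -, f3, -, -, f6, f7, f8, -⟩ := hFNS V w X hC.sy
  obtain ⟨-, -, -, -, -, g6, g7, g8, -⟩ := hFNS V (addE w a b) X (f6 a b hab)
  have hsub : S.erase v ⊆ S := erase_subset _ _
  have hdgT : ∀ T ⊆ S.erase v, a ∈ T → b ∈ T → c ∈ T → d ∈ T → dg w T v = 4 := by
    intro T hT h1 h2 h3 h4
    unfold dg
    rw [sum_congr rfl fun u hu => hw u (hT hu), sum_add_distrib, sum_add_distrib,
      sum_add_distrib, sum_ite_eq', sum_ite_eq', sum_ite_eq', sum_ite_eq', if_pos h1, if_pos h2,
      if_pos h3, if_pos h4]
  have hae : a ∈ S.erase v := mem_erase.mpr ⟨hva.symm, ha⟩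
  have hbe : b ∈ S.erase v := mem_erase.mpr ⟨hvb.symm, hb⟩
  have hce : c ∈ S.erase v := mem_erase.mpr ⟨hvc.symm, hc⟩
  have hde : d ∈ S.erase v := mem_erase.mpr ⟨hvd.symm, hd⟩
  -- the slack of `T` when all neighbours of `v` are in `T`
  have hins : ∀ T ⊆ S.erase v, a ∈ T → b ∈ T → c ∈ T → d ∈ T →
      f X w (insert v T) = f X w T - 2 := by
    intro T hT h1 h2 h3 h4
    have hvT : v ∉ T := fun h => notMem_erase v S (hT h)
    rw [f3 T v hvT, hXv, hdgT T hT h1 h2 h3 h4]
    push_cast
    ring
  have hfe : f X w (S.erase v) = 2 := by
    have h := hins (S.erase v) (Subset.refl _) hae hbe hce hde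
    rw [insert_erase hv, hC.tot] at h
    linarith
  refine ⟨g6 c d hcd, ?_, ?_, ?_, ?_⟩
  · intro u hu
    exact hC.root u (hsub hu)
  · rw [g8 _ c d hcd, f8 _ a b hab, if_pos ⟨hae, hbe⟩, if_pos ⟨hce, hde⟩, hfe]
    norm_num
  · intro T hT
    rw [g8 _ c d hcd, f8 _ a b hab]
    by_cases hT0 : T = ∅
    · subst hT0
      rw [f1, if_neg (by simp), if_neg (by simp)]
      norm_num
    · have hTS : T ≠ S := by
        rintro rfl
        exact notMem_erase v T (hT hv)
      have h3 := (hI T (hT.trans hsub) (nonempty_iff_ne_empty.mpr hT0) hTS).1
      by_cases h1 : a ∈ T ∧ b ∈ T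
      · by_cases h2 : c ∈ T ∧ d ∈ T
        · rw [if_pos h1, if_pos h2]
          have h4 := hC.iv (insert v T) (insert_subset hv (hT.trans hsub))
          rw [hins T hT h1.1 h1.2 h2.1 h2.2] at h4
          linarith
        · rw [if_pos h1, if_neg h2]
          linarith
      · rw [if_neg h1]
        split_ifs <;> linarith
  · intro T hT h2
    rw [g7 _ c d hcd, f7 _ a b hab]
    have hTS := hT.trans hsub
    by_cases h1 : a ∈ T ∧ b ∈ T
    · by_cases h3 : c ∈ T ∧ d ∈ T
      · rw [if_pos h1, if_pos h3]
        have hvT : v ∉ T := fun h => notMem_erase v S (hT h)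
        have h4 := hins T hT h1.1 h1.2 h3.1 h3.2
        have h6 := LC2_X S X w hC T hTS
        have h7 := hC.iv (insert v T) (insert_subset hv hTS)
        have hv3 := hC.v T hTS h2
        rcases Nat.lt_or_ge T.card 4 with h8 | h8
        · rcases Nat.lt_or_ge T.card 3 with h9 | h9
          · -- two vertices
            have h10 : T.card = 2 := by omega
            have h11 := LC2_pair a b hab T h10 h1.1 h1.2
            have hcc : c = a ∨ c = b := by
              have := h3.1
              rw [h11, mem_insert, mem_singleton] at this
              exact this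
            have hdd : d = a ∨ d = b := by
              have := h3.2
              rw [h11, mem_insert, mem_singleton] at this
              exact this
            have hwa : w v a = 2 := by
              rw [hw a hae]
              rcases hcc with rfl | rfl
              · rcases hdd with rfl | rfl
                · exact absurd rfl hcd
                · simp [hab]
              · rcases hdd with rfl | rfl
                · simp [hab]
                · exact absurd rfl hcd
            have hwb : w v b = 2 := by
              rw [hw b hbe]
              rcases hcc with rfl | rfl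
              · rcases hdd with rfl | rfl
                · exact absurd rfl hcd
                · simp [hab.symm]
              · rcases hdd with rfl | rfl
                · simp [hab.symm]
                · exact absurd rfl hcd
            have h12 := e6 v a b hva hvb hab
            have h13 : ({v, a, b} : Finset V).card = 3 := by
              rw [card_insert_of_notMem, card_pair hab]
              rw [mem_insert, mem_singleton]
              rintro (h | h)
              · exact hva h
              · exact hvb h
            have h14 : ({v, a, b} : Finset V) ⊆ S := by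
              intro x hx
              rw [mem_insert, mem_insert, mem_singleton] at hx
              rcases hx with rfl | rfl | rfl
              · exact hv
              · exact ha
              · exact hb
            have h15 := hC.v {v, a, b} h14 (by rw [h13]; norm_num)
            have h16 : E w ({v, a, b} : Finset V) ≠ 5 := fun h =>
              hvQ {v, a, b} ⟨h14, h13, h⟩ (mem_insert_self _ _)
            have h17 : E w T = w a b := by
              rw [h11]
              exact e5 a b hab
            omega
          · -- three vertices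
            have h10 : T.card = 3 := by omega
            have h11 : insert v T ≠ S := by
              intro h
              rw [← h, card_insert_of_notMem hvT] at h5
              omega
            have h12 := (hI (insert v T) (insert_subset hv hTS) (insert_nonempty _ _) h11).1
            rw [h4] at h12
            unfold f at h12
            omega
        · rw [h4] at h7
          unfold f at h7
          omega
      · rw [if_pos h1, if_neg h3]
        exact LC2_v hEIN S X w hC hI v hv a b hab hB1 T hT h2 h1.1 h1.2
    · rw [if_neg h1]
      by_cases h3 : c ∈ T ∧ d ∈ T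
      · rw [if_pos h3]
        exact LC2_v hEIN S X w hC hI v hv c d hcd hB2 T hT h2 h3.1 h3.2
      · rw [if_neg h3]
        exact hC.v T hTS h2

end

end Pool.Agent.KU
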